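import Pool.Agent.Helper21.EM.Stmts

/-!
# T33, row CORE: the Lie theorem (assembly)
-/

set_option autoImplicit false

open Matrix MT

namespace EM

section

variable {K : Type} [Field K] {n : ℕ}

/-- every block can be enumerated -/
theorem h54_exists_enm (L : Submodule K (Matrix (Fin n) (Fin n) K))
    (P : Matrix.GeneralLinearGroup (Fin n) K) (k : Fin n) :
    ∃ (r : ℕ) (f : Fin r → Fin n), Enm L P k r f := by
  classical
  set S : Finset (Fin n) := Finset.univ.filter fun j => Sam L P j P k with hS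
  refine ⟨S.card, fun i => (S.equivFin.symm i).1, ⟨?_, ?_⟩⟩
  · intro a b hab
    exact S.equivFin.symm.injective (Subtype.ext hab)
  · intro j
    constructor
    · rintro ⟨i, rfl⟩
      exact (Finset.mem_filter.1 (S.equivFin.symm i).2).2
    · intro hj
      have hjS : j ∈ S := by rw [hS, Finset.mem_filter]; exact ⟨Finset.mem_univ _, hj⟩
      exact ⟨S.equivFin ⟨j, hjS⟩, by simp⟩

/-- a block with all columns -/
theorem h54_idm_full (L : Submodule K (Matrix (Fin n) (Fin n) K))
    (P : Matrix.GeneralLinearGroup (Fin n) K) (k : Fin n) (f : Fin n → Fin n)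
    (hE : Enm L P k n f) : idm L P k = 1 := by
  classical
  have hsur : Function.Surjective f := Finite.surjective_of_injective hE.inj
  have hall : ∀ j, Sam L P j P k := fun j => (hE.rng j).1 (hsur j)
  unfold idm
  have h1 : (fun j => if Sam L P j P k then (1 : K) else 0) = fun _ => 1 := by
    funext j; rw [if_pos (hall j)]
  have h2 : (Matrix.diagonal (fun j => if Sam L P j P k then (1 : K) else 0)) =
      (1 : Matrix (Fin n) (Fin n) K) := by
    rw [h1]; exact Matrix.diagonal_one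
  rw [h2, Matrix.mul_one]
  have h3 := congrArg Units.val (mul_inv_cancel P)
  rw [Units.val_mul, Units.val_one] at h3
  exact h3

end

/-- blocks of size one -/
theorem h54_ful_one (hIDM : ST_IDM) (hCOO : ST_COO) (hBFM : ST_BFM)
    (K : Type) [Field K] [CharZero K] (n w : ℕ) (h : Fin n → ℕ)
    (ψ : Matrix (Fin n) (Fin n) K) (L D : Submodule K (Matrix (Fin n) (Fin n) K))
    (P : Matrix.GeneralLinearGroup (Fin n) K) (k : Fin n) (f : Fin 1 → Fin n)
    (hS : Sss w ψ L) (hF : Frm w h L P) (hE : Enm L P k 1 f) :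
    Ful ψ D (idm L P k) := by
  obtain ⟨hVU, hUV, heU, hVe, htr⟩ := hCOO K n L P k 1 f hE
  have hrec : ∀ Y : Matrix (Fin n) (Fin n) K, idm L P k * Y * idm L P k = Y →
      Y = UU P f * (VV P f * Y * UU P f) * VV P f := by
    intro Y hY
    calc Y = idm L P k * Y * idm L P k := hY.symm
      _ = (UU P f * VV P f) * Y * (UU P f * VV P f) := by rw [hUV]
      _ = UU P f * (VV P f * Y * UU P f) * VV P f := by simp only [Matrix.mul_assoc]
  constructor
  · intro hreal A hA hAe
    obtain ⟨hirs, hsym, hsk, -⟩ := hBFM K n w h ψ L P k 1 f hS hF hE hreal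
    have hdet : (frm ψ P f).det ≠ 0 := hirs.1
    have hd1 : (frm ψ P f).det = frm ψ P f 0 0 := Matrix.det_fin_one _
    have hf0 : frm ψ P f 0 0 ≠ 0 := by rw [← hd1]; exact hdet
    have h1 := hsk A hA
    have h2 : VV P f * A * UU P f = 0 := by
      have h3 := congrFun (congrFun h1 0) 0
      simp only [Matrix.add_apply, Matrix.mul_apply, Fin.sum_univ_one, Matrix.transpose_apply,
        Matrix.zero_apply] at h3
      have h4 : (2 : K) * frm ψ P f 0 0 * (VV P f * A * UU P f) 0 0 = 0 := by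
        simp only [Matrix.mul_apply] at h3 ⊢
        linear_combination h3
      have h5 : (VV P f * A * UU P f) 0 0 = 0 := by
        rcases mul_eq_zero.1 h4 with h6 | h6
        · exact absurd h6 (mul_ne_zero two_ne_zero hf0)
        · exact h6
      ext i j
      rw [Fin.fin_one_eq_zero i, Fin.fin_one_eq_zero j]
      exact h5
    have h6 : A = 0 := by rw [hrec A hAe, h2, Matrix.mul_zero, Matrix.zero_mul]
    rw [h6]; exact D.zero_mem
  · intro _ Y hYe hYtr
    have h1 : (VV P f * Y * UU P f).trace = 0 := by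
      rw [Matrix.mul_assoc, Matrix.trace_mul_comm, Matrix.mul_assoc, hUV]
      have h2 : Y * idm L P k = Y := by
        have hid := (hIDM K n w h L P hF k).2.1
        calc Y * idm L P k = idm L P k * Y * idm L P k * idm L P k := by rw [hYe]
          _ = idm L P k * Y * (idm L P k * idm L P k) := by rw [Matrix.mul_assoc]
          _ = Y := by rw [hid, hYe]
      rw [h2]; exact hYtr
    have h2 : VV P f * Y * UU P f = 0 := by
      ext i j
      rw [Fin.fin_one_eq_zero i, Fin.fin_one_eq_zero j]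
      rw [Matrix.trace_fin_one] at h1
      exact h1
    have h3 : Y = 0 := by rw [hrec Y hYe, h2, Matrix.mul_zero, Matrix.zero_mul]
    have h4 : Y - adj ψ Y = 0 := by
      rw [h3]; unfold adj; simp
    rw [h4]; exact D.zero_mem

theorem st_CORE (hIDM : ST_IDM) (hPRM : ST_PRM) (hCOO : ST_COO) (hBFM : ST_BFM)
    (hWID : ST_WID) (hLNC : ST_LNC) (hLNR : ST_LNR) (hPFO : ST_PFO) (hPAR : ST_PAR)
    (hPRC : ST_PRC) (hRIB : ST_RIB) (hFDR : ST_FDR) (hSMM : ST_SMM) : ST_CORE := by
  intro K _ _ _ n w h ψ L Fr hS hne hFr hgood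
  obtain ⟨P₀, hP₀⟩ := hne
  have hF₀ := hFr P₀ hP₀
  -- every primitive idempotent comes from a good column
  have hcl : ∀ ε ∈ Prm L, ∃ P ∈ Fr, ∃ k : Fin n, ε = idm L P k ∧
      GoodAt w h (fun j => Sam L P j P k) (adj ψ (idm L P k) = idm L P k) k := by
    intro ε hε
    obtain ⟨k, hk⟩ := (hPRM K n w h ψ L P₀ hS hF₀).2.1 ε hε
    obtain ⟨P', hP', k', hsam, hg⟩ := hgood P₀ hP₀ k
    refine ⟨P', hP', k', ?_, hg⟩
    rw [hk]
    exact ((hIDM K n w h L P₀ hF₀ k).2.2.2.2.2.2 P' (hFr P' hP') k').1 hsam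
  -- columns of type Lin
  have hlin : ∀ P ∈ Fr, ∀ k : Fin n, Lin w h k → Ful ψ L (idm L P k) := by
    rintro P hP k ⟨m, hm, hiso, hkm, hcard⟩
    exact ⟨fun hreal => hLNR K n w m h ψ L P k hS (hFr P hP) hm hiso hkm hcard hreal,
      fun hreal => hLNC K n w m h ψ L P k hS (hFr P hP) hm hiso hkm hcard hreal⟩
  -- Fulness for every idempotent, in L
  have hful : ∀ ε ∈ Prm L, Ful ψ L ε := by
    intro ε hε
    obtain ⟨P, hP, k, hεk, hg⟩ := hcl ε hε
    rcases hg with hl | ⟨r, f, hfi, hfr, hr⟩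
    · rw [hεk]; exact hlin P hP k hl
    have hE : Enm L P k r f := ⟨hfi, hfr⟩
    rcases hr with hr1 | ⟨hreal, hr2, hr3⟩
    · subst hr1
      rw [hεk]; exact h54_ful_one hIDM hCOO hBFM K n w h ψ L L P k f hS (hFr P hP) hE
    have hr2' : r ≤ 2 ∨ WideC w (h ∘ f) := hr2.imp (fun h2 => h2.le) id
    obtain ⟨hblk, hsur, hodd⟩ := hWID K n w h ψ L P k r f hS (hFr P hP) hE hreal hr2'
    by_cases hrn : r = n
    · subst hrn
      have h1 := h54_idm_full L P k f hE
      rw [h1] at hsur hreal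
      rw [hεk, h1]
      refine ⟨fun _ A hA hA1 => ?_, fun hne => absurd hreal hne⟩
      obtain ⟨B, hB, hBA⟩ := hsur A hA hA1
      rw [Matrix.one_mul, Matrix.mul_one] at hBA
      rw [← hBA]; exact hB
    have hr4 : Odd w ∨ (r ≠ 4 ∧ r ≠ 8) := by
      rcases hr3 with h1 | h1 | h1
      · exact Or.inl h1
      · exact absurd h1 hrn
      · exact Or.inr h1
    have hprf : Prf ψ (idm L P k) := by
      refine hPFO K n w h ψ L P k r f hS (hFr P hP) hE hreal ?_
      by_cases h2 : r = 2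
      · exact Or.inl (hodd h2)
      · exact Or.inr h2
    rw [hεk]
    rw [hεk] at hε
    refine hRIB K n w h ψ L P _ hS (hFr P hP) hε hreal hsur hprf ?_
    intro ε' hε' hne'
    obtain ⟨P', hP', k', hεk', hg'⟩ := hcl ε' hε'
    rcases hg' with hl' | ⟨r', f', hfi', hfr', hr'⟩
    · refine hPRC K n w h ψ L P _ _ hS (hFr P hP) hε hε' hne' hreal hsur hprf ?_
      rw [hεk']; exact hlin P' hP' k' hl'
    have hE' : Enm L P' k' r' f' := ⟨hfi', hfr'⟩
    rcases hr' with hr1' | ⟨hreal', hr2', hr3'⟩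
    · subst hr1'
      refine hPRC K n w h ψ L P _ _ hS (hFr P hP) hε hε' hne' hreal hsur hprf ?_
      rw [hεk']; exact h54_ful_one hIDM hCOO hBFM K n w h ψ L L P' k' f' hS (hFr P' hP') hE'
    have hr2'' : r' ≤ 2 ∨ WideC w (h ∘ f') := hr2'.imp (fun h2 => h2.le) id
    obtain ⟨hblk', hsur', hodd'⟩ := hWID K n w h ψ L P' k' r' f' hS (hFr P' hP') hE' hreal' hr2''
    have hrn' : r' ≠ n := by
      intro hcon
      subst hcon
      have h1 := h54_idm_full L P' k' f' hE'
      have h2 := (hPRM K r' w h ψ L P hS (hFr P hP)).2.2.1 _ hε _ hε' hne'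
      rw [hεk', h1, Matrix.mul_one] at h2
      exact hε.2.2.1 h2
    rw [hεk']
    rw [hεk'] at hne'
    refine hPAR K n w h ψ L P P' k k' r r' f f' hS (hFr P hP) (hFr P' hP') hE hE' hreal hreal'
      hblk hblk' ?_ hne'
    rcases hr4 with h1 | h1
    · exact Or.inl h1
    rcases hr3' with h2 | h2 | h2
    · exact Or.inl h2
    · exact absurd h2 hrn'
    by_cases hw : Odd w
    · exact Or.inl hw
    · exact Or.inr ⟨fun h3 => hw (hodd h3), h1.1, h1.2, fun h3 => hw (hodd' h3), h2.1, h2.2⟩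
  -- the derived algebra
  have hder : ∀ ε ∈ Prm L, Ful ψ (HG.der L) ε := by
    intro ε hε
    obtain ⟨k, hk⟩ := (hPRM K n w h ψ L P₀ hS hF₀).2.1 ε hε
    obtain ⟨r, f, hE⟩ := h54_exists_enm L P₀ k
    rw [hk]
    rw [hk] at hε
    refine hFDR K n w h ψ L P₀ k r f hS hF₀ hE ?_ (hful _ hε)
    by_cases hreal : adj ψ (idm L P₀ k) = idm L P₀ k
    · by_cases hr : r = 2
      · left
        exact (hWID K n w h ψ L P₀ k r f hS hF₀ hE hreal (Or.inl hr.le)).2.2 hr
      · exact Or.inr (Or.inl hr)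
    · exact Or.inr (Or.inr hreal)
  exact hSMM K n w h ψ L (HG.der L) P₀ hS hF₀ hder

end EM
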